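import Mathlib
import Pool.Agent.Y738.BC.Defs
import Pool.Agent.Y738.BC.Smooth
import Pool.Agent.Y738.BC.Irr
import Pool.Agent.Y738.BC.Upper
import Pool.Agent.Y738.BC.Lower
import Pool.Agent.Y738.BC.Curve

set_option autoImplicit false

/-!
# A smooth threefold with a rational point and no curve of best approximation

`X` is the hypersurface `G = 0` of bidegree `(4, 1)` in `ℙ³ × ℙ¹` over `ℚ`. In terms of the norm
form `N` of the cubic field `ℚ(θ)`, `θ ^ 3 = 2`, the equation is
`t₁ (x₃ N - A) + t₀ (x₃ ^ 4 + B) = 0` with `A = Tr (α ^ 4) / 3`, `B = Tr (θ α ^ 4) / 3` for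
`α = x₀ + x₁ θ + x₂ θ ^ 2`. The rational points which are the best approximations to
`P = ([0 : 0 : 0 : 1], [0 : 1])` belong to the units of `ℤ[θ]`, and the subspace theorem shows
that no curve contains infinitely many points which are almost as good.
-/

namespace Pool.Agent.Results.MP_16efdc_nt.NoCurveOfBestApproximation

open MvPolynomial Pool.Agent.Y738.BC

/-- **There is a smooth projective threefold `X` over `ℚ` with a rational point `P` such that for
many ample line bundles `O(a, b)` the approximation constant of `P` (for the real place) is finite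
and is different from the approximation constant of `P` on every curve `C ⊆ X`.** -/
theorem result (a b : ℕ) (ha : 0 < a) (hab : 4 * a < 3 * b) :
    -- the threefold `X : G = 0` in `ℙ³ × ℙ¹` is smooth
    (∀ (x : Fin 4 → ℂ) (t : Fin 2 → ℂ), x ≠ 0 → t ≠ 0 → aeval (Sum.elim x t) G = 0 →
      ∃ i, aeval (Sum.elim x t) (pderiv i G) ≠ 0) ∧
    -- it is irreducible over `ℂ`
    Irreducible (MvPolynomial.map (algebraMap ℚ ℂ) G) ∧
    -- `P` is a rational point of `X`
    P ∈ points (Ideal.span {G}) ∧
    -- the approximation constant of `P` for the line bundle `O(a, b)` on `X`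
    approxConst a b (points (Ideal.span {G})) P = ((4 * a / 3 : ℝ) : EReal) ∧
    -- the approximation constants on closed subschemes of dimension at most one are larger
    ∀ J : Ideal R, G ∈ J → ringKrullDim (R ⧸ J) ≤ 3 →
      approxConst a b (points (Ideal.span {G})) P < approxConst a b (points J) P := by
  have h0 : approxConst a b (points (Ideal.span {G})) P = ((4 * a / 3 : ℝ) : EReal) :=
    le_antisymm (upper a b) (lower ha hab subset_rfl)
  refine ⟨fun x t hx ht _ => smooth x t hx ht, Irr.irreducible, ?_, h0, ?_⟩
  · rw [mem_span_points]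
    intro x t hx ht he
    have e1 : Projectivization.mk ℚ x hx = P.1 := congrArg Prod.fst he
    have e2 : Projectivization.mk ℚ t ht = P.2 := congrArg Prod.snd he
    unfold P at e1 e2
    rw [Projectivization.mk_eq_mk_iff'] at e1 e2
    obtain ⟨α, rfl⟩ := e1
    obtain ⟨β, rfl⟩ := e2
    rw [aeval_G]
    simp
  · intro J hG hJ
    rw [h0]
    exact strict ha hab hG hJ

end Pool.Agent.Results.MP_16efdc_nt.NoCurveOfBestApproximation
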